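import Pool.Agent.U347.SS.Sep

/-! Inscribed squares from conditions at a single scale: hulls of arcs, paths inside, bounded
turning, John condition. -/

set_option autoImplicit false
open Complex Set Topology Metric Filter
open scoped ComplexConjugate

namespace Pool.Agent.U347.SS

open Pool.Agent.H763R2 Pool.Agent.H763R2.An
open Pool.Agent.H763R2.Dm (NoSq)
open Pool.Agent.Y765.Sq (Ann Dirc)
open Pool.Agent.N335.Hg
open Pool.Agent.U347.BT (slit_of_seg side_avoid norm_sq_lin lam_pos)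

variable {c : ℝ → ℂ}

/-- an arc does not wind around a point outside its convex hull -/
theorem W_hull (L : Loop c) {z : ℂ} {x y : ℝ} (hxy : x ≤ y)
    (hz : z ∉ convexHull ℝ (c '' Icc x y)) (hzC : z ∉ range c) : W c z x y = 0 := by
  have cc := L.cont
  obtain ⟨k, hk, ek⟩ := exists_Lg L hzC
  have hx : c x - z ≠ 0 := fun h => hzC (by rw [← sub_eq_zero.1 h]; exact mem_range_self x)
  have hs : ∀ τ ∈ Icc x y, (c τ - z) / (c x - z) ∈ slitPlane := fun τ hτ => slit_of_seg fun h =>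
    hz ((convex_convexHull ℝ (c '' Icc x y)).segment_subset
      (subset_convexHull ℝ _ (mem_image_of_mem c (⟨le_rfl, hxy⟩ : x ∈ Icc x y)))
      (subset_convexHull ℝ _ (mem_image_of_mem c hτ)) h)
  have key := H777R2.exp_const_on (A := Icc x y) isPreconnected_Icc
    (k := fun τ => k τ - log ((c τ - z) / (c x - z))) (by
      refine hk.continuousOn.sub fun τ hτ => ?_
      have h1 : ContinuousAt (fun τ => (c τ - z) / (c x - z)) τ :=
        ContinuousAt.div (by fun_prop) continuousAt_const hx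
      exact (h1.clog (hs τ hτ)).continuousWithinAt) (c := c x - z) (fun τ hτ => by
      have h0 : c τ - z ≠ 0 := fun h => hzC (by rw [← sub_eq_zero.1 h]; exact mem_range_self τ)
      rw [exp_sub, ek, exp_log (div_ne_zero h0 hx)]
      field_simp) (x := y) (y := x) ⟨hxy, le_rfl⟩ ⟨le_rfl, hxy⟩
  have k2 := congrArg Complex.im key
  simp only [sub_im, div_self hx, log_one, sub_zero, log_im] at k2
  unfold W
  rw [Phi_eq ⟨hk, ek⟩, sub_im]
  linarith

theorem E_eq (x y : ℝ) : G c 1 x y = CC c x y := by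
  unfold G CC Sq.Cv
  push_cast; ring

/-- the general theorem -/
theorem square_single (L : Loop c) (J : Inj c) {O : ℂ} (hO : 0 < mgc c O) {ρ : ℂ → ℂ → ℝ} {α : ℝ}
    (cρ : Continuous fun p : ℂ × ℂ => ρ p.1 p.2) (hpos : ∀ z, 0 < ρ z z)
    (hlt : ∀ x y, O ∈ segment ℝ (c x) (c y) → ρ (c x) (c y) < ‖c y - c x‖)
    (hα : 0 < Real.sin α)
    (H : ∀ x y, x < y → y < x + 1 → ‖c y - c x‖ = ρ (c x) (c y) → Dirc c α x y →
      ((CC c x y ∉ convexHull ℝ (c '' Icc x y) ∧ O ∉ convexHull ℝ (c '' Icc x y)) ∨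
        (CC c x y ∉ convexHull ℝ (c '' Icc y (x + 1)) ∧ O ∉ convexHull ℝ (c '' Icc y (x + 1)))) ∨
      ∃ γ : ℝ → ℂ, Continuous γ ∧ γ 0 = CC c x y ∧ γ 1 = O ∧
        ∀ s ∈ Icc (0:ℝ) 1, γ s ∉ range c ∧ γ s ∉ segment ℝ (c x) (c y)) :
    ∃ z w : ℂ, w ≠ 0 ∧ z ∈ range c ∧ z + w ∈ range c ∧ z + w + I * w ∈ range c ∧
      z + I * w ∈ range c := by
  by_contra nosq
  have S := mgc_sg L
  have off : ∀ {z : ℂ}, 0 < mgc c z → z ∉ range c := fun {z} h h1 => by
    rw [(S.zero L).2 h1] at h; exact lt_irrefl _ h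
  have wc : ∀ {z : ℂ}, 0 < mgc c z → ∃ n : ℤ, n ≠ 0 ∧ IsWc c z n := by
    intro z hz
    unfold mgc at hz
    split_ifs at hz with h
    · obtain ⟨n, hn, ho⟩ := h
      exact ⟨n, by rintro rfl; exact absurd ho (by decide), hn⟩
    · have := infDist_nonneg (x := z) (s := range c)
      linarith
  have inE : ∀ x y, Dirc c α x y → 0 < mgc c (G c 1 x y) := by
    rintro x y ⟨t, ht, -, e⟩
    rw [E_eq, e]
    exact mul_pos ht hα
  obtain ⟨n, hn, hw⟩ := wc hO
  have hOC := off hO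
  obtain ⟨x, y, h1, h2, h3, h4, h5⟩ := sep_main L J nosq (α := α) (e := 1)
    (fun x y _ _ h => off (inE x y h)) hn hw hOC cρ hpos hlt
  have hE := inE x y h4
  have hEC := off hE
  have hAB : c y ≠ c x := (J x y h1 h2).symm
  have sE := G_seg (c := c) 1 hAB
  have sO : O ∉ segment ℝ (c x) (c y) := not_seg_of_lt hlt h3.le
  have hπ := Real.pi_pos
  have nz : ∀ m : ℤ, m ≠ 0 → (m : ℝ) * (2 * Real.pi) ≠ 0 := fun m hm =>
    mul_ne_zero (by exact_mod_cast hm) (by positivity)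
  rcases H x y h1 h2 h3 h4 with (⟨a1, a2⟩ | ⟨a1, a2⟩) | ⟨γ, hγ, γ0, γ1, γS⟩
  · rw [← E_eq] at a1
    exact h5 (by rw [W_hull L h1.le a1 hEC, W_hull L h1.le a2 hOC])
  · rw [← E_eq] at a1
    obtain ⟨m, hm, hwE⟩ := wc hE
    have b1 := W_compl L hwE hEC sE
    have b2 := W_compl L hw hOC sO
    rw [W_hull L h2.le a1 hEC, add_zero] at b1
    rw [W_hull L h2.le a2 hOC, add_zero] at b2
    refine h5 ?_
    rw [b1, b2]
    exact ⟨fun h => absurd h (nz m hm), fun h => absurd h (nz n hn)⟩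
  · have := W_path L hγ γS
    rw [γ0, γ1, ← E_eq] at this
    exact h5 (by rw [this])

theorem norm_CC (x y : ℝ) : ‖CC c x y - c x‖ = √2 * ‖c y - c x‖ := by
  have h := norm_sq_lin 1 1 (c y - c x)
  rw [show CC c x y - c x = (((1 : ℝ) : ℂ) + (1 : ℝ) * I) * (c y - c x) by
    unfold CC Sq.Cv; push_cast; ring]
  rw [← Real.sqrt_sq (norm_nonneg _), h, Real.sqrt_mul (by norm_num),
    Real.sqrt_sq (norm_nonneg _)]
  norm_num

theorem chord_O {O : ℂ} {x y : ℝ} (h : O ∈ segment ℝ (c x) (c y)) :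
    2 * infDist O (range c) ≤ ‖c y - c x‖ := by
  rw [segment_eq_image'] at h
  obtain ⟨σ, ⟨h0, h1⟩, rfl⟩ := h
  simp only [real_smul]
  have e1 := infDist_le_dist_of_mem (x := c x + (σ : ℂ) * (c y - c x)) (mem_range_self (f := c) x)
  have e2 := infDist_le_dist_of_mem (x := c x + (σ : ℂ) * (c y - c x)) (mem_range_self (f := c) y)
  rw [dist_eq_norm, show c x + (σ : ℂ) * (c y - c x) - c x = σ * (c y - c x) by ring, norm_mul,
    norm_real, Real.norm_of_nonneg h0] at e1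
  rw [dist_eq_norm, show c x + (σ : ℂ) * (c y - c x) - c y =
    -(((1 - σ : ℝ) : ℂ) * (c y - c x)) by push_cast; ring, norm_neg, norm_mul, norm_real,
    Real.norm_of_nonneg (by linarith)] at e2
  linarith

/-- bounded turning at a single scale -/
theorem square_turn (L : Loop c) (J : Inj c) {O : ℂ} (hO : 0 < mgc c O) {r : ℝ} (hr : 0 < r)
    (hrO : √2 * r ≤ infDist O (range c))
    (H : ∀ x y, x < y → y < x + 1 → ‖c y - c x‖ = r →
      (∀ τ ∈ Icc x y, ‖c τ - c x‖ < √2 * r) ∨ (∀ τ ∈ Icc y (x + 1), ‖c τ - c x‖ < √2 * r)) :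
    ∃ z w : ℂ, w ≠ 0 ∧ z ∈ range c ∧ z + w ∈ range c ∧ z + w + I * w ∈ range c ∧
      z + I * w ∈ range c := by
  have s1 : 1 ≤ √2 := by
    rw [Real.le_sqrt' one_pos]; norm_num
  refine square_single L J hO (ρ := fun _ _ => r) (α := Real.pi / 2) continuous_const
    (fun _ => hr) (fun x y h => ?_) (by rw [Real.sin_pi_div_two]; exact one_pos)
    fun x y h1 h2 h3 _ => Or.inl ?_
  · have := chord_O h
    nlinarith
  · have hE : CC c x y ∉ ball (c x) (√2 * r) := by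
      rw [mem_ball, dist_eq_norm, norm_CC, h3]; exact lt_irrefl _
    have hO' : O ∉ ball (c x) (√2 * r) := by
      rw [mem_ball, not_lt]
      exact hrO.trans (infDist_le_dist_of_mem (mem_range_self x))
    have hull : ∀ {s : Set ℝ}, (∀ τ ∈ s, ‖c τ - c x‖ < √2 * r) →
        convexHull ℝ (c '' s) ⊆ ball (c x) (√2 * r) := by
      intro s hs
      refine convexHull_min ?_ (convex_ball _ _)
      rintro _ ⟨τ, hτ, rfl⟩
      rw [mem_ball, dist_eq_norm]
      exact hs τ hτ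
    rcases H x y h1 h2 h3 with h | h
    · exact Or.inl ⟨fun k => hE (hull h k), fun k => hO' (hull h k)⟩
    · exact Or.inr ⟨fun k => hE (hull h k), fun k => hO' (hull h k)⟩

/-- John condition at a single scale -/
theorem square_john (L : Loop c) (J : Inj c) {O : ℂ} (hO : 0 < mgc c O) {r m : ℝ} (hr : 0 < r)
    (hrO : r < 2 * infDist O (range c)) (hm : 1 / √5 < m)
    (H : ∀ z, 0 < mgc c z → ∃ γ : ℝ → ℂ, Continuous γ ∧ γ 0 = z ∧ γ 1 = O ∧
      ∀ s ∈ Icc (0:ℝ) 1, γ s ∉ range c ∧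
        (r ≤ ‖γ s - z‖ → m * ‖γ s - z‖ ≤ infDist (γ s) (range c))) :
    ∃ z w : ℂ, w ≠ 0 ∧ z ∈ range c ∧ z + w ∈ range c ∧ z + w + I * w ∈ range c ∧
      z + I * w ∈ range c := by
  obtain ⟨hl0, hl1⟩ := lam_pos hm
  refine square_single L J hO (ρ := fun _ _ => r) (α := Real.pi / 2) continuous_const
    (fun _ => hr) (fun x y h => ?_) (by rw [Real.sin_pi_div_two]; exact one_pos)
    fun x y h1 h2 h3 h4 => Or.inr ?_
  · have := chord_O h
    linarith
  · have hE : 0 < mgc c (CC c x y) := by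
      obtain ⟨t, ht, -, e⟩ := h4
      rw [e, Real.sin_pi_div_two, mul_one]; exact ht
    obtain ⟨γ, hγ, γ0, γ1, γS⟩ := H _ hE
    refine ⟨γ, hγ, γ0, γ1, fun s hs => ⟨(γS s hs).1, fun hseg => ?_⟩⟩
    have hd := (γS s hs).2
    rw [segment_eq_image'] at hseg
    obtain ⟨σ, ⟨i0, i1⟩, e⟩ := hseg
    simp only [real_smul] at e
    rw [← e] at hd
    have hN : ‖c x + (σ : ℂ) * (c y - c x) - CC c x y‖ ^ 2 = (1 + (1 - σ) ^ 2) * r ^ 2 := by
      rw [show c x + (σ : ℂ) * (c y - c x) - CC c x y =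
        ((-(1 - σ) : ℝ) + ((-1 : ℝ) : ℂ) * I) * (c y - c x) by
          unfold CC Sq.Cv; push_cast; ring, norm_sq_lin, h3]
      ring
    have hge : r ≤ ‖c x + (σ : ℂ) * (c y - c x) - CC c x y‖ := by
      refine (le_abs_self _).trans (abs_le_of_sq_le_sq ?_ (norm_nonneg _))
      rw [hN]
      nlinarith [sq_nonneg ((1 - σ) * r)]
    refine side_avoid hl0 hl1 hr i0 i1 infDist_nonneg ?_ ?_ (norm_nonneg _) hN (hd hge)
    · refine (infDist_le_dist_of_mem (mem_range_self x)).trans ?_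
      rw [dist_eq_norm, show c x + (σ : ℂ) * (c y - c x) - c x = σ * (c y - c x) by ring,
        norm_mul, norm_real, Real.norm_of_nonneg i0, h3]
    · refine (infDist_le_dist_of_mem (mem_range_self y)).trans ?_
      rw [dist_eq_norm, show c x + (σ : ℂ) * (c y - c x) - c y =
        -(((1 - σ : ℝ) : ℂ) * (c y - c x)) by push_cast; ring, norm_neg, norm_mul, norm_real,
        Real.norm_of_nonneg (by linarith), h3]

/-- the arc over `[x, y]` and the segment wind around `z` -/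
def Enc (c : ℝ → ℂ) (z : ℂ) (x y : ℝ) : Prop :=
  ∃ k : ℝ → ℂ, Continuous k ∧ (∀ t, exp (k t) = c t - z) ∧
    (k y - k x).im ≠ arg ((c y - z) / (c x - z))

theorem enc_iff (L : Loop c) {z : ℂ} (hz : z ∉ range c) (x y : ℝ) :
    Enc c z x y ↔ W c z x y ≠ 0 := by
  constructor
  · rintro ⟨k, hk, ek, h⟩ h0
    unfold W at h0
    rw [Phi_eq ⟨hk, ek⟩] at h0
    exact h (by linarith)
  · intro h
    obtain ⟨k, hk, ek⟩ := exists_Lg L hz
    refine ⟨k, hk, ek, fun h0 => h ?_⟩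
    unfold W
    rw [Phi_eq ⟨hk, ek⟩, h0, sub_self]

/-- the chord separates `E` from `O` -/
def Sepa (c : ℝ → ℂ) (O E : ℂ) (x y : ℝ) : Prop :=
  (Enc c E x y ∧ ¬ Enc c O x y ∨ ¬ Enc c E x y ∧ Enc c O x y) ∧
  (∀ γ : ℝ → ℂ, Continuous γ → γ 0 = E → γ 1 = O →
    (∀ s ∈ Icc (0:ℝ) 1, γ s ∉ range c) →
    ∃ s ∈ Icc (0:ℝ) 1, γ s ∈ segment ℝ (c x) (c y)) ∧
  (E ∈ convexHull ℝ (c '' Icc x y) ∨ O ∈ convexHull ℝ (c '' Icc x y)) ∧
  (E ∈ convexHull ℝ (c '' Icc y (x + 1)) ∨ O ∈ convexHull ℝ (c '' Icc y (x + 1)))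

/-- the structural theorem -/
theorem square_nosep (L : Loop c) (J : Inj c) {O : ℂ} (hO : 0 < mgc c O) {ρ : ℂ → ℂ → ℝ} {α : ℝ}
    (cρ : Continuous fun p : ℂ × ℂ => ρ p.1 p.2) (hpos : ∀ z, 0 < ρ z z)
    (hlt : ∀ x y, O ∈ segment ℝ (c x) (c y) → ρ (c x) (c y) < ‖c y - c x‖)
    (hα : 0 < Real.sin α)
    (H : ∀ x y, x < y → y < x + 1 → ‖c y - c x‖ = ρ (c x) (c y) → Dirc c α x y →
      ¬ Sepa c O (CC c x y) x y) :
    ∃ z w : ℂ, w ≠ 0 ∧ z ∈ range c ∧ z + w ∈ range c ∧ z + w + I * w ∈ range c ∧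
      z + I * w ∈ range c := by
  by_contra nosq
  have S := mgc_sg L
  have off : ∀ {z : ℂ}, 0 < mgc c z → z ∉ range c := fun {z} h h1 => by
    rw [(S.zero L).2 h1] at h; exact lt_irrefl _ h
  have wc : ∀ {z : ℂ}, 0 < mgc c z → ∃ n : ℤ, n ≠ 0 ∧ IsWc c z n := by
    intro z hz
    unfold mgc at hz
    split_ifs at hz with h
    · obtain ⟨n, hn, ho⟩ := h
      exact ⟨n, by rintro rfl; exact absurd ho (by decide), hn⟩
    · have := infDist_nonneg (x := z) (s := range c)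
      linarith
  have inE : ∀ x y, Dirc c α x y → 0 < mgc c (G c 1 x y) := by
    rintro x y ⟨t, ht, -, e⟩
    rw [E_eq, e]
    exact mul_pos ht hα
  obtain ⟨n, hn, hw⟩ := wc hO
  have hOC := off hO
  obtain ⟨x, y, h1, h2, h3, h4, h5⟩ := sep_main L J nosq (α := α) (e := 1)
    (fun x y _ _ h => off (inE x y h)) hn hw hOC cρ hpos hlt
  have hE := inE x y h4
  rw [E_eq] at hE h5
  have hEC := off hE
  have hAB : c y ≠ c x := (J x y h1 h2).symm
  have sE := G_seg (c := c) 1 hAB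
  rw [E_eq] at sE
  have sO : O ∉ segment ℝ (c x) (c y) := not_seg_of_lt hlt h3.le
  have hπ := Real.pi_pos
  have nz : ∀ m : ℤ, m ≠ 0 → (m : ℝ) * (2 * Real.pi) ≠ 0 := fun m hm =>
    mul_ne_zero (by exact_mod_cast hm) (by positivity)
  refine H x y h1 h2 h3 h4 ⟨?_, ?_, ?_, ?_⟩
  · rw [enc_iff L hEC, enc_iff L hOC]
    tauto
  · intro γ hγ γ0 γ1 γC
    by_contra hno
    push Not at hno
    have := W_path L hγ (x := x) (y := y) (fun s hs => ⟨γC s hs, hno s hs⟩)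
    rw [γ0, γ1] at this
    exact h5 (by rw [this])
  · by_contra hno
    push Not at hno
    exact h5 (by rw [W_hull L h1.le hno.1 hEC, W_hull L h1.le hno.2 hOC])
  · by_contra hno
    push Not at hno
    obtain ⟨m, hm, hwE⟩ := wc hE
    have b1 := W_compl L hwE hEC sE
    have b2 := W_compl L hw hOC sO
    rw [W_hull L h2.le hno.1 hEC, add_zero] at b1
    rw [W_hull L h2.le hno.2 hOC, add_zero] at b2
    refine h5 ?_
    rw [b1, b2]
    exact ⟨fun h => absurd h (nz m hm), fun h => absurd h (nz n hn)⟩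

end Pool.Agent.U347.SS
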