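import Pool.Agent.U347.SS.Wn

/-! Curves without inscribed squares have, at every scale and in every direction, a chord which
separates the fourth vertex of the square from the inside. -/

set_option autoImplicit false
open Complex Set Topology Metric Filter
open scoped ComplexConjugate

namespace Pool.Agent.U347.SS

open Pool.Agent.H763R2 Pool.Agent.H763R2.An
open Pool.Agent.H763R2.Dm (NoSq)
open Pool.Agent.Y765.Sq (Ann exists_int exists_rep Dirc Zs conn_fam cl cl_coe cl_cont cA_cont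
  cB_cont)
open Pool.Agent.N335.Hg

variable {c : ℝ → ℂ}

/-- a function on the annulus is continuous if it is continuous on the strip -/
theorem lift_cont {f : Ann → ℝ} {φ : ℝ × ℝ → ℝ}
    (hf : ∀ x s : ℝ, f ((x : AddCircle (1 : ℝ)), s) = φ (x, s)) {T : Set Ann}
    (hφ : ContinuousOn φ {q | (((q.1 : AddCircle (1 : ℝ)), q.2) : Ann) ∈ T}) :
    ContinuousOn f T := by
  rintro ⟨p, s⟩ hp
  obtain ⟨x, rfl⟩ := QuotientAddGroup.mk_surjective p
  intro V hV
  have h1 := hφ (x, s) hp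
  have hV' : V ∈ 𝓝 (φ (x, s)) := by rw [← hf]; exact hV
  have h2 := h1 hV'
  rw [Filter.mem_map, mem_nhdsWithin] at h2
  obtain ⟨U, hU, hxU, hUV⟩ := h2
  rw [Filter.mem_map, mem_nhdsWithin]
  have ho : IsOpenMap (fun q : ℝ × ℝ => (((q.1 : AddCircle (1 : ℝ)), q.2) : Ann)) :=
    (QuotientAddGroup.isOpenMap_coe (N := AddSubgroup.zmultiples (1 : ℝ))).prodMap IsOpenMap.id
  refine ⟨_, ho U hU, ⟨(x, s), hxU, rfl⟩, ?_⟩
  rintro _ ⟨⟨q, hq, rfl⟩, hqT⟩
  have := hUV ⟨hq, hqT⟩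
  rw [mem_preimage] at this ⊢
  rw [hf]
  exact this

/-- the vertex `A + (e + i) (B - A)` over the chord -/
noncomputable def G (c : ℝ → ℂ) (e x y : ℝ) : ℂ := c x + ((e : ℂ) + I) * (c y - c x)

theorem G_seg (e : ℝ) {x y : ℝ} (h : c y ≠ c x) : G c e x y ∉ segment ℝ (c x) (c y) := by
  rw [segment_eq_image']
  rintro ⟨σ, -, hσ⟩
  simp only [real_smul] at hσ
  unfold G at hσ
  have h1 : ((σ : ℂ) - e - I) * (c y - c x) = 0 := by linear_combination hσ
  rcases mul_eq_zero.1 h1 with h2 | h2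
  · have := congrArg Complex.im h2
    simp at this
  · exact h (sub_eq_zero.1 h2)

theorem not_seg_of_lt {O : ℂ} {ρ : ℂ → ℂ → ℝ}
    (hlt : ∀ x y, O ∈ segment ℝ (c x) (c y) → ρ (c x) (c y) < ‖c y - c x‖) {x y : ℝ}
    (h : ‖c y - c x‖ ≤ ρ (c x) (c y)) : O ∉ segment ℝ (c x) (c y) := fun h1 =>
  absurd (hlt x y h1) (not_lt.2 h)

/-- the general statement -/
theorem sep_main (L : Loop c) (J : Inj c) (nosq : NoSq (range c)) {α e : ℝ}
    (he : ∀ x y, x < y → y < x + 1 → Dirc c α x y → G c e x y ∉ range c) {O : ℂ} {n : ℤ}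
    (hn : n ≠ 0) (hw : IsWc c O n) (hO : O ∉ range c) {ρ : ℂ → ℂ → ℝ}
    (cρ : Continuous fun p : ℂ × ℂ => ρ p.1 p.2) (hpos : ∀ z, 0 < ρ z z)
    (hlt : ∀ x y, O ∈ segment ℝ (c x) (c y) → ρ (c x) (c y) < ‖c y - c x‖) :
    ∃ x y, x < y ∧ y < x + 1 ∧ ‖c y - c x‖ = ρ (c x) (c y) ∧ Dirc c α x y ∧
      ¬ (W c (G c e x y) x y = 0 ↔ W c O x y = 0) := by
  by_contra hcon
  push Not at hcon
  have cc := L.cont
  have hπ := Real.pi_pos
  have dO : 0 < infDist O (range c) := (L.closed.notMem_iff_infDist_pos L.ne).1 hO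
  -- short arcs
  obtain ⟨δ1, hδ1, hUC⟩ : ∃ δ > 0, ∀ s ∈ Icc (0:ℝ) 2, ∀ t ∈ Icc (0:ℝ) 2, |s - t| ≤ δ →
      ‖c s - c t‖ < infDist O (range c) := by
    have := isCompact_Icc.uniformContinuousOn_of_continuous (s := Icc (0:ℝ) 2) cc.continuousOn
    obtain ⟨δ, hδ, h⟩ := Metric.uniformContinuousOn_iff.1 this _ dO
    refine ⟨δ / 2, by positivity, fun s hs t ht hst => ?_⟩
    have := h s hs t ht (by rw [Real.dist_eq]; linarith)
    rwa [dist_eq_norm] at this
  obtain ⟨h, hh⟩ : ∃ h : ℝ × ℝ → ℝ, h = fun q => ρ (c q.1) (c (q.1 + q.2)) -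
      ‖c (q.1 + q.2) - c q.1‖ := ⟨_, rfl⟩
  have chh : Continuous h := by
    rw [hh]
    have : Continuous fun q : ℝ × ℝ => ρ (c q.1) (c (q.1 + q.2)) :=
      cρ.comp (f := fun q : ℝ × ℝ => ((c q.1, c (q.1 + q.2)) : ℂ × ℂ)) (by fun_prop)
    fun_prop
  obtain ⟨δ2, hδ2, hS⟩ : ∃ δ > 0, ∀ x ∈ Icc (0:ℝ) 1, ∀ s, 0 ≤ s → s ≤ δ → 0 < h (x, s) := by
    have hK : IsCompact ((Icc (0:ℝ) 1 ×ˢ Icc (0:ℝ) 1) ∩ {q | h q ≤ 0}) :=
      (isCompact_Icc.prod isCompact_Icc).inter_right (isClosed_le chh continuous_const)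
    rcases (((Icc (0:ℝ) 1 ×ˢ Icc (0:ℝ) 1) ∩ {q | h q ≤ 0})).eq_empty_or_nonempty with he | he
    · refine ⟨1, one_pos, fun x hx s hs hs1 => ?_⟩
      by_contra hc
      have : (x, s) ∈ ((Icc (0:ℝ) 1 ×ˢ Icc (0:ℝ) 1) ∩ {q | h q ≤ 0}) :=
        ⟨⟨hx, ⟨hs, hs1⟩⟩, not_lt.1 hc⟩
      rw [he] at this
      exact this
    · obtain ⟨q0, hq0, hmin⟩ := hK.exists_isMinOn he (f := fun q => q.2) continuousOn_snd
      have h0 : 0 < q0.2 := by
        refine lt_of_le_of_ne hq0.1.2.1 fun h0 => ?_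
        have h1 := hq0.2
        rw [mem_ofPred_eq, hh] at h1
        simp only at h1
        rw [← h0, add_zero, sub_self, norm_zero, sub_zero] at h1
        exact absurd (hpos _) (not_lt.2 h1)
      refine ⟨min (q0.2 / 2) 1, by positivity, fun x hx s hs hs1 => ?_⟩
      by_contra hc
      have h2 : q0.2 ≤ s := hmin (show (x, s) ∈ _ from
        ⟨⟨hx, ⟨hs, hs1.trans (min_le_right _ _)⟩⟩, not_lt.1 hc⟩)
      have := hs1.trans (min_le_left _ _)
      linarith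
  obtain ⟨δ3, hδ3, hS'⟩ : ∃ δ > 0, ∀ x ∈ Icc (0:ℝ) 1, ∀ s, s ≤ 1 → 1 - δ ≤ s → 0 < h (x, s) := by
    have hK : IsCompact ((Icc (0:ℝ) 1 ×ˢ Icc (0:ℝ) 1) ∩ {q | h q ≤ 0}) :=
      (isCompact_Icc.prod isCompact_Icc).inter_right (isClosed_le chh continuous_const)
    rcases (((Icc (0:ℝ) 1 ×ˢ Icc (0:ℝ) 1) ∩ {q | h q ≤ 0})).eq_empty_or_nonempty with he | he
    · refine ⟨1, one_pos, fun x hx s hs hs1 => ?_⟩
      by_contra hc
      have : (x, s) ∈ ((Icc (0:ℝ) 1 ×ˢ Icc (0:ℝ) 1) ∩ {q | h q ≤ 0}) :=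
        ⟨⟨hx, ⟨by linarith, hs⟩⟩, not_lt.1 hc⟩
      rw [he] at this
      exact this
    · obtain ⟨q0, hq0, hmax⟩ := hK.exists_isMaxOn he (f := fun q => q.2) continuousOn_snd
      have h0 : q0.2 < 1 := by
        refine lt_of_le_of_ne hq0.1.2.2 fun h0 => ?_
        have h1 := hq0.2
        rw [mem_ofPred_eq, hh] at h1
        simp only at h1
        rw [h0, L.per, sub_self, norm_zero, sub_zero] at h1
        exact absurd (hpos _) (not_lt.2 h1)
      refine ⟨min ((1 - q0.2) / 2) 1, by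
        have : 0 < 1 - q0.2 := by linarith
        positivity, fun x hx s hs hs1 => ?_⟩
      have g1 : min ((1 - q0.2) / 2) 1 ≤ 1 := min_le_right _ _
      have g2 : min ((1 - q0.2) / 2) 1 ≤ (1 - q0.2) / 2 := min_le_left _ _
      by_contra hc
      have h2 : s ≤ q0.2 := hmax (show (x, s) ∈ _ from
        ⟨⟨hx, ⟨by linarith, hs⟩⟩, not_lt.1 hc⟩)
      linarith
  obtain ⟨δ, hδ⟩ : ∃ δ, δ = min (min δ1 (1 / 4)) (min δ2 δ3) := ⟨_, rfl⟩
  have δ0 : 0 < δ := by rw [hδ]; positivity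
  have d1 : δ ≤ δ1 := by rw [hδ]; exact (min_le_left _ _).trans (min_le_left _ _)
  have d4 : δ ≤ 1 / 4 := by rw [hδ]; exact (min_le_left _ _).trans (min_le_right _ _)
  have d2 : δ ≤ δ2 := by rw [hδ]; exact (min_le_right _ _).trans (min_le_left _ _)
  have d3 : δ ≤ δ3 := by rw [hδ]; exact (min_le_right _ _).trans (min_le_right _ _)
  obtain ⟨T, hT, hTZ, ⟨p1, hp1, e1⟩, ⟨p2, hp2, e2⟩⟩ := conn_fam L J nosq α δ0 (by linarith)
  -- the functions on the annulus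
  have perE : ∀ s, Function.Periodic (fun x => W c (G c e x (x + s)) x (x + s)) 1 := by
    intro s x
    simp only
    have h0 : G c e (x + 1) (x + 1 + s) = G c e x (x + s) := by
      unfold G
      rw [show x + 1 + s = x + s + 1 by ring, L.per, L.per]
    rw [h0, show x + 1 + s = x + s + 1 by ring, W_shift L]
  have perO : ∀ s, Function.Periodic (fun x => W c O x (x + s)) 1 := by
    intro s x
    simp only
    rw [show x + 1 + s = x + s + 1 by ring, W_shift L]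
  obtain ⟨fE, hfE⟩ : ∃ f : Ann → ℝ, ∀ x s : ℝ, f ((x : AddCircle (1 : ℝ)), s) =
      W c (G c e x (x + s)) x (x + s) := ⟨fun p => (perE p.2).lift p.1, fun x s => rfl⟩
  obtain ⟨fO, hfO⟩ : ∃ f : Ann → ℝ, ∀ x s : ℝ, f ((x : AddCircle (1 : ℝ)), s) =
      W c O x (x + s) := ⟨fun p => (perO p.2).lift p.1, fun x s => rfl⟩
  obtain ⟨g, hg⟩ : ∃ g : Ann → ℝ, g = fun p => ‖cl L (p.1 + (p.2 : AddCircle (1 : ℝ))) -
      cl L p.1‖ - ρ (cl L p.1) (cl L (p.1 + (p.2 : AddCircle (1 : ℝ)))) := ⟨_, rfl⟩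
  have cg : Continuous g := by
    have h1 := cA_cont L
    have h2 := cB_cont L
    have h3 : Continuous fun p : Ann => ρ (cl L p.1) (cl L (p.1 + (p.2 : AddCircle (1 : ℝ)))) :=
      cρ.comp (f := fun p : Ann => ((cl L p.1, cl L (p.1 + (p.2 : AddCircle (1 : ℝ)))) : ℂ × ℂ))
        (h1.prodMk h2)
    rw [hg]
    exact (h2.sub h1).norm.sub h3
  have hgx : ∀ (x s : ℝ), g ((x : AddCircle (1 : ℝ)), s) = - h (x, s) := by
    intro x s
    rw [hg, hh]
    simp only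
    rw [← AddCircle.coe_add, cl_coe, cl_coe]
    ring
  -- the label of the family is constant
  have hGne : ∀ p ∈ T, ∀ x : ℝ, (x : AddCircle (1 : ℝ)) = p.1 → G c e x (x + p.2) ∉ range c ∧
      G c e x (x + p.2) ∉ segment ℝ (c x) (c (x + p.2)) := by
    intro p hp x hx
    obtain ⟨i1, i2, i3⟩ := hTZ hp
    have i4 : x < x + p.2 := by linarith
    have i5 : x + p.2 < x + 1 := by linarith
    exact ⟨he _ _ i4 i5 (i3 x hx), G_seg e (J _ _ i4 i5).symm⟩
  have cE : ContinuousOn fE T := by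
    refine lift_cont (φ := fun q => W c (G c e q.1 (q.1 + q.2)) q.1 (q.1 + q.2)) hfE ?_
    have := (W_cont L).comp (f := fun q : ℝ × ℝ =>
      ((G c e q.1 (q.1 + q.2), q.1, q.1 + q.2) : ℂ × ℝ × ℝ))
      (s := {q | (((q.1 : AddCircle (1 : ℝ)), q.2) : Ann) ∈ T})
      (Continuous.continuousOn (by unfold G; fun_prop)) (fun q hq => hGne _ hq q.1 rfl)
    exact this
  have vE : ∀ p ∈ T, exp (((fE p : ℝ) : ℂ) * I) = 1 := fun p hp => by
    obtain ⟨x, -, hx⟩ := exists_rep p.1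
    obtain ⟨m, hm⟩ := W_int L (hGne p hp x hx).1 x (x + p.2)
    have : fE p = m * (2 * Real.pi) := by
      rw [← hm, ← hfE, hx]
    rw [this, exp_eq_one_iff]
    exact ⟨m, by push_cast; ring⟩
  have cEc : ∀ p ∈ T, ∀ q ∈ T, ((fE p : ℝ) : ℂ) * I = ((fE q : ℝ) : ℂ) * I :=
    fun p hp q hq => H777R2.exp_const_on hT.isPreconnected (k := fun p => ((fE p : ℝ) : ℂ) * I)
      ((continuous_ofReal.comp_continuousOn cE).mul continuousOn_const) (c := 1) vE hp hq
  -- the winding around `O`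
  obtain ⟨K, hK⟩ : ∃ K : Set Ann, K = {p | g p ≤ 0} := ⟨_, rfl⟩
  have cK : IsClosed K := by rw [hK]; exact isClosed_le cg continuous_const
  have hKseg : ∀ x s : ℝ, (((x : AddCircle (1 : ℝ)), s) : Ann) ∈ K →
      O ∉ segment ℝ (c x) (c (x + s)) := by
    intro x s hx
    rw [hK, mem_ofPred_eq, hgx, hh] at hx
    exact not_seg_of_lt hlt (by simp only at hx; linarith)
  have cO : ContinuousOn fO K := by
    refine lift_cont (φ := fun q => W c O q.1 (q.1 + q.2)) hfO ?_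
    have := (W_cont L).comp (f := fun q : ℝ × ℝ => ((O, q.1, q.1 + q.2) : ℂ × ℝ × ℝ))
      (s := {q | (((q.1 : AddCircle (1 : ℝ)), q.2) : Ann) ∈ K})
      (Continuous.continuousOn (by fun_prop)) (fun q hq => ⟨hO, hKseg _ _ hq⟩)
    exact this
  have vO : ∀ p, ∃ m : ℤ, fO p = m * (2 * Real.pi) := by
    intro p
    obtain ⟨x, -, hx⟩ := exists_rep p.1
    obtain ⟨m, hm⟩ := W_int L hO x (x + p.2)
    exact ⟨m, by rw [← hm, ← hfO, hx]⟩
  have lev : ∀ v : ℤ, (∃ p ∈ T, g p ≤ 0 ∧ fO p = v * (2 * Real.pi)) →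
      (∃ p ∈ T, g p ≤ 0 ∧ fO p ≠ v * (2 * Real.pi)) →
      ∃ p ∈ T, g p = 0 ∧ fO p = v * (2 * Real.pi) := by
    rintro v ⟨q1, hq1, i1, i2⟩ ⟨q2, hq2, i3, i4⟩
    have far : ∀ p, fO p ≠ v * (2 * Real.pi) → Real.pi ≤ |fO p - v * (2 * Real.pi)| := by
      intro p hp
      obtain ⟨m, hm⟩ := vO p
      have hmv : m ≠ v := by rintro rfl; exact hp hm
      rw [hm, ← sub_mul, abs_mul, abs_of_pos (show 0 < 2 * Real.pi by positivity)]
      have : (1 : ℝ) ≤ |(m : ℝ) - v| := by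
        have h1 : 1 ≤ |m - v| := Int.one_le_abs (sub_ne_zero.2 hmv)
        exact_mod_cast h1
      nlinarith
    have t0 : IsClosed (K ∩ fO ⁻¹' {v * (2 * Real.pi)}) :=
      cO.preimage_isClosed_of_isClosed cK isClosed_singleton
    have t1 : IsClosed ({p | 0 ≤ g p} ∪ (K ∩ fO ⁻¹' {t | Real.pi ≤ |t - v * (2 * Real.pi)|})) :=
      (isClosed_le continuous_const cg).union
        (cO.preimage_isClosed_of_isClosed cK (isClosed_le continuous_const (by fun_prop)))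
    obtain ⟨p, hp, ⟨hpK, hpv⟩, hp'⟩ := isPreconnected_closed_iff.1 hT.isPreconnected _ _ t0 t1
      (fun p _ => by
        rcases le_or_gt 0 (g p) with j | j
        · exact Or.inr (Or.inl j)
        · have hpK : p ∈ K := by rw [hK]; exact j.le
          by_cases jv : fO p = v * (2 * Real.pi)
          · exact Or.inl ⟨hpK, jv⟩
          · exact Or.inr (Or.inr ⟨hpK, far p jv⟩))
      ⟨q1, hq1, by rw [hK]; exact i1, i2⟩
      ⟨q2, hq2, Or.inr ⟨by rw [hK]; exact i3, far _ i4⟩⟩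
    have hpv' : fO p = v * (2 * Real.pi) := hpv
    rw [hK] at hpK
    refine ⟨p, hp, le_antisymm hpK ?_, hpv'⟩
    rcases hp' with j | ⟨-, j⟩
    · exact j
    · exfalso
      rw [mem_preimage, mem_ofPred_eq, hpv', sub_self, abs_zero] at j
      linarith
  -- the two ends
  have end1 : g p1 ≤ 0 ∧ fO p1 = (0 : ℤ) * (2 * Real.pi) := by
    obtain ⟨x, hx, hxp⟩ := exists_rep p1.1
    have hp : p1 = ((x : AddCircle (1 : ℝ)), δ) := Prod.ext hxp.symm e1
    have k1 := hS x hx δ δ0.le d2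
    refine ⟨by rw [hp, hgx]; linarith, ?_⟩
    rw [hp, hfO, Int.cast_zero, zero_mul]
    refine W_short L hO (p := c x) (r := infDist O (range c)) (by linarith) (fun τ hτ => ?_) ?_
    · rw [mem_ball, dist_eq_norm]
      exact hUC _ ⟨by linarith [hx.1, hτ.1], by linarith [hx.2, hτ.2]⟩ _
        ⟨hx.1, by linarith [hx.2]⟩ (by rw [abs_le]; constructor <;> linarith [hτ.1, hτ.2])
    · rw [mem_ball, not_lt]
      exact infDist_le_dist_of_mem (mem_range_self x)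
  have end2 : g p2 ≤ 0 ∧ fO p2 = n * (2 * Real.pi) := by
    obtain ⟨x, hx, hxp⟩ := exists_rep p2.1
    have hp : p2 = ((x : AddCircle (1 : ℝ)), 1 - δ) := Prod.ext hxp.symm e2
    have k1 := hS' x hx (1 - δ) (by linarith) (by linarith)
    have k2 : g p2 ≤ 0 := by rw [hp, hgx]; linarith
    refine ⟨k2, ?_⟩
    have k3 : O ∉ segment ℝ (c x) (c (x + (1 - δ))) := hKseg x (1 - δ) (by
      rw [← hp, hK]; exact k2)
    have k4 := W_compl L hw hO k3
    have k5 : W c O (x + (1 - δ)) (x + 1) = 0 := by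
      refine W_short L hO (p := c (x + 1)) (r := infDist O (range c)) (by linarith)
        (fun τ hτ => ?_) ?_
      · rw [mem_ball, dist_eq_norm]
        exact hUC _ ⟨by linarith [hx.1, hτ.1], by linarith [hx.2, hτ.2]⟩ _
          ⟨by linarith [hx.1], by linarith [hx.2]⟩
          (by rw [abs_le]; constructor <;> linarith [hτ.1, hτ.2])
      · rw [mem_ball, not_lt]
        exact infDist_le_dist_of_mem (mem_range_self _)
    rw [hp, hfO]
    linarith
  have hn' : (n : ℝ) ≠ 0 := by exact_mod_cast hn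
  have hne : (n : ℝ) * (2 * Real.pi) ≠ 0 := mul_ne_zero hn' (by positivity)
  obtain ⟨q1, hq1, a1, a2⟩ := lev 0 ⟨p1, hp1, end1⟩ ⟨p2, hp2, end2.1, by
    rw [end2.2, Int.cast_zero, zero_mul]; exact hne⟩
  obtain ⟨q2, hq2, b1, b2⟩ := lev n ⟨p2, hp2, end2⟩ ⟨p1, hp1, end1.1, by
    rw [end1.2, Int.cast_zero, zero_mul]; exact hne.symm⟩
  have fin : ∀ q ∈ T, g q = 0 → (fE q = 0 ↔ fO q = 0) := by
    intro q hq hgq
    obtain ⟨x, -, hx⟩ := exists_rep q.1
    obtain ⟨i1, i2, i3⟩ := hTZ hq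
    have hqe : q = ((x : AddCircle (1 : ℝ)), q.2) := Prod.ext hx.symm rfl
    have i6 : ‖c (x + q.2) - c x‖ = ρ (c x) (c (x + q.2)) := by
      rw [hqe, hgx, hh] at hgq
      simp only at hgq
      linarith
    have := hcon x (x + q.2) (by linarith) (by linarith) i6 (i3 x hx)
    rw [hqe, hfE, hfO]
    exact this
  have key := cEc _ hq1 _ hq2
  have key2 : fE q1 = fE q2 := by
    have := mul_right_cancel₀ I_ne_zero key
    exact_mod_cast this
  have j1 : fE q1 = 0 := (fin q1 hq1 a1).2 (by rw [a2, Int.cast_zero, zero_mul])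
  rw [j1] at key2
  have j2 := (fin q2 hq2 b1).1 key2.symm
  rw [b2] at j2
  exact hne j2

end Pool.Agent.U347.SS
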