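import Pool.Agent.U347.BT.ExitK

/-! The winding of an arc of a closed curve, closed by the segment between its ends, around a
point. -/

set_option autoImplicit false
open Complex Set Topology Metric Filter
open scoped ComplexConjugate

namespace Pool.Agent.U347.SS

open Pool.Agent.H763R2 Pool.Agent.H763R2.An
open Pool.Agent.N335.Hg
open Pool.Agent.U347.BT (slit_of_seg)

variable {c : ℝ → ℂ} {z : ℂ}

/-- the winding of the arc over `[x, y]` followed by the segment from `c y` to `c x` around `z` -/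
noncomputable def W (c : ℝ → ℂ) (z : ℂ) (x y : ℝ) : ℝ :=
  Phi c z x y - arg ((c y - z) / (c x - z))

theorem Phi_on (hz : z ∈ range c) (x y : ℝ) : Phi c z x y = 0 := by
  unfold Phi
  rw [dif_neg]
  rintro ⟨k, hk, ek⟩
  obtain ⟨τ, hτ⟩ := hz
  have := ek τ
  rw [hτ, sub_self] at this
  exact exp_ne_zero _ this

theorem W_int (L : Loop c) (hz : z ∉ range c) (x y : ℝ) :
    ∃ n : ℤ, W c z x y = n * (2 * Real.pi) := by
  obtain ⟨ρ, hρ, e⟩ := Phi_polar L hz x y
  have hx : c x - z ≠ 0 := fun h => hz (by rw [← sub_eq_zero.1 h]; exact mem_range_self x)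
  have hy : c y - z ≠ 0 := fun h => hz (by rw [← sub_eq_zero.1 h]; exact mem_range_self y)
  have h1 : (c y - z) / (c x - z) = ρ * exp (Phi c z x y * I) := by
    rw [div_eq_iff hx, e]
  have h2 : (c y - z) / (c x - z) = ‖(c y - z) / (c x - z)‖ *
      exp (arg ((c y - z) / (c x - z)) * I) := (norm_mul_exp_arg_mul_I _).symm
  obtain ⟨n, hn⟩ := ang_eq hρ (norm_pos_iff.2 (div_ne_zero hy hx)) (h1.symm.trans h2)
  exact ⟨n, by unfold W; linarith⟩

theorem W_cont (L : Loop c) : ContinuousOn (fun p : ℂ × ℝ × ℝ => W c p.1 p.2.1 p.2.2)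
    {p | p.1 ∉ range c ∧ p.1 ∉ segment ℝ (c p.2.1) (c p.2.2)} := by
  have cc := L.cont
  unfold W
  refine ((Phi_cont L).mono fun p hp => hp.1).sub ?_
  rintro ⟨z, x, y⟩ ⟨h1, h2⟩
  simp only at h1 h2
  refine ContinuousAt.continuousWithinAt ?_
  have hx : c x - z ≠ 0 := fun h => h1 (by rw [← sub_eq_zero.1 h]; exact mem_range_self x)
  have h3 : ContinuousAt arg ((fun p : ℂ × ℝ × ℝ => (c p.2.2 - p.1) / (c p.2.1 - p.1)) (z, x, y)) :=
    continuousAt_arg (slit_of_seg h2)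
  have h4 : ContinuousAt (fun p : ℂ × ℝ × ℝ => (c p.2.2 - p.1) / (c p.2.1 - p.1)) (z, x, y) :=
    ContinuousAt.div (by fun_prop) (by fun_prop) hx
  exact ContinuousAt.comp (f := fun p : ℂ × ℝ × ℝ => (c p.2.2 - p.1) / (c p.2.1 - p.1))
    (g := arg) h3 h4

theorem W_shift (L : Loop c) (z : ℂ) (x y : ℝ) : W c z (x + 1) (y + 1) = W c z x y := by
  unfold W
  rw [L.per, L.per]
  by_cases hz : z ∈ range c
  · rw [Phi_on hz, Phi_on hz]
  · rw [Phi_per L hz]

/-- the winding around two points that are joined by a path avoiding the curve and the segment -/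
theorem W_path (L : Loop c) {x y : ℝ} {γ : ℝ → ℂ} (hγ : Continuous γ)
    (h : ∀ s ∈ Icc (0:ℝ) 1, γ s ∉ range c ∧ γ s ∉ segment ℝ (c x) (c y)) :
    W c (γ 0) x y = W c (γ 1) x y := by
  obtain ⟨cs, hcs⟩ : ∃ cs : ℝ → ℝ, cs = fun σ => max 0 (min σ 1) := ⟨_, rfl⟩
  have ccs : Continuous cs := by rw [hcs]; fun_prop
  have csm : ∀ σ, cs σ ∈ Icc (0:ℝ) 1 := fun σ => by
    rw [hcs]; exact ⟨le_max_left _ _, max_le zero_le_one (min_le_right _ _)⟩
  have cs0 : cs 0 = 0 := by rw [hcs]; simp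
  have cs1 : cs 1 = 1 := by rw [hcs]; simp
  have h1 : Continuous fun σ => W c (γ (cs σ)) x y := by
    have := (W_cont L).comp_continuous (f := fun σ : ℝ => ((γ (cs σ), x, y) : ℂ × ℝ × ℝ))
      (by fun_prop) (fun σ => h _ (csm σ))
    exact this
  have key := H777R2.exp_const (X := ℝ) (k := fun σ => ((W c (γ (cs σ)) x y : ℝ) : ℂ) * I)
    (by fun_prop) (c := 1) (fun σ => by
      obtain ⟨n, hn⟩ := W_int L (h _ (csm σ)).1 x y
      rw [hn, exp_eq_one_iff]
      exact ⟨n, by push_cast; ring⟩) 0 1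
  simp only [cs0, cs1] at key
  have := mul_right_cancel₀ I_ne_zero key
  exact_mod_cast this

theorem W_compl (L : Loop c) {n : ℤ} (hw : IsWc c z n) (hz : z ∉ range c) {x y : ℝ}
    (hs : z ∉ segment ℝ (c x) (c y)) : W c z x y + W c z y (x + 1) = n * (2 * Real.pi) := by
  have h1 := Phi_wind L hw x
  have h2 := Phi_add L hz x y (x + 1)
  have h3 : arg ((c (x + 1) - z) / (c y - z)) = - arg ((c y - z) / (c x - z)) := by
    rw [L.per, ← inv_div, arg_inv, if_neg]
    exact (mem_slitPlane_iff_arg.1 (slit_of_seg hs)).1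
  unfold W
  rw [h3]
  linarith

/-- short arcs do not wind around distant points -/
theorem W_short (L : Loop c) (hz : z ∉ range c) {p : ℂ} {r x y : ℝ} (hxy : x ≤ y)
    (hb : ∀ τ ∈ Icc x y, c τ ∈ ball p r) (hp : z ∉ ball p r) : W c z x y = 0 := by
  have hz1 : r ≤ ‖p - z‖ := by
    rw [mem_ball, not_lt, dist_comm, dist_eq_norm] at hp; exact hp
  have hpos : ∀ ξ ∈ ball p r, 0 < (conj (p - z) * (ξ - z)).re := by
    intro ξ hξ
    rw [mem_ball, dist_eq_norm] at hξ
    have e : conj (p - z) * (ξ - z) = conj (p - z) * (p - z) + conj (p - z) * (ξ - p) := by ring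
    have e2 : conj (p - z) * (p - z) = ((‖p - z‖ ^ 2 : ℝ) : ℂ) := by
      rw [mul_comm, Complex.mul_conj, Complex.normSq_eq_norm_sq]
    rw [e, add_re, e2, ofReal_re]
    have h7 := (abs_le.1 (abs_re_le_norm (conj (p - z) * (ξ - p)))).1
    rw [norm_mul, norm_conj] at h7
    have h8 : 0 < ‖p - z‖ := lt_of_le_of_lt (norm_nonneg _) (lt_of_lt_of_le hξ hz1)
    have h9 : ‖p - z‖ * ‖ξ - p‖ < ‖p - z‖ * ‖p - z‖ :=
      mul_lt_mul_of_pos_left (lt_of_lt_of_le hξ hz1) h8
    nlinarith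
  have hw0 : conj (p - z) ≠ 0 := by
    intro h0
    have := hpos _ (hb x ⟨le_rfl, hxy⟩)
    rw [h0, zero_mul, zero_re] at this
    exact lt_irrefl _ this
  have h1 := abs_lt.1 (Phi_half L hz (w := conj (p - z)) hxy fun τ hτ => hpos _ (hb τ hτ))
  have px := hpos _ (hb x ⟨le_rfl, hxy⟩)
  have py := hpos _ (hb y ⟨hxy, le_rfl⟩)
  have h2 : arg ((c y - z) / (c x - z)) = arg (conj (p - z) * (c y - z)) -
      arg (conj (p - z) * (c x - z)) := by
    have := congrArg Complex.im (Pool.Agent.U347.BT.log_div_pos py px)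
    rw [log_im, sub_im, log_im, log_im, mul_div_mul_left _ _ hw0] at this
    exact this
  have a1 := abs_lt.1 (abs_arg_lt_pi_div_two_iff.2 (Or.inl px))
  have a2 := abs_lt.1 (abs_arg_lt_pi_div_two_iff.2 (Or.inl py))
  obtain ⟨n, hn⟩ := W_int L hz x y
  have : n = 0 := by
    refine int_zero_of (x := W c z x y) hn ?_ ?_
    · unfold W; rw [h2]; linarith [a1.1, a1.2, a2.1, a2.2, h1.1]
    · unfold W; rw [h2]; linarith [a1.1, a1.2, a2.1, a2.2, h1.2]
  rw [hn, this]
  push_cast; ring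

end Pool.Agent.U347.SS
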